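import Pool.Agent.W960.HC.Defs

set_option autoImplicit false

open Set Topology Filter MeasureTheory

namespace Pool.Agent.W920.HC

open Pool.Agent.W960.HC

lemma fld_smooth (a c ε : ℝ) : ContDiff ℝ 2 (fld a c ε) := by
  unfold fld
  fun_prop

lemma fld_neg (a c ε : ℝ) (p : ℝ × ℝ) : fld a c ε (-p) = -fld a c ε p := by
  unfold fld
  ext
  · simp
  · simp only [Prod.fst_neg, Prod.snd_neg]
    ring

/-- uniqueness of solutions, from the left end point -/
lemma uniq_right {a c ε s t : ℝ} {f g : ℝ → ℝ × ℝ}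
    (hf : ∀ u ∈ Icc s t, HasDerivAt f (fld a c ε (f u)) u)
    (hg : ∀ u ∈ Icc s t, HasDerivAt g (fld a c ε (g u)) u) (h : f s = g s) :
    EqOn f g (Icc s t) := by
  have cf : ContinuousOn f (Icc s t) := fun u hu => (hf u hu).continuousAt.continuousWithinAt
  have cg : ContinuousOn g (Icc s t) := fun u hu => (hg u hu).continuousAt.continuousWithinAt
  obtain ⟨R, hR⟩ := ((isCompact_Icc.image_of_continuousOn cf).union
    (isCompact_Icc.image_of_continuousOn cg)).isBounded.exists_norm_le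
  obtain ⟨K, hK⟩ := ContDiffOn.exists_lipschitzOnWith (s := Metric.closedBall (0 : ℝ × ℝ) R)
    (fld_smooth a c ε).contDiffOn (by norm_num) (convex_closedBall _ _)
    (isCompact_closedBall _ _)
  exact ODE_solution_unique_of_mem_Icc_right (v := fun _ => fld a c ε)
    (s := fun _ => Metric.closedBall (0 : ℝ × ℝ) R) (fun _ _ => hK) cf
    (fun u hu => (hf u (Ico_subset_Icc_self hu)).hasDerivWithinAt)
    (fun u hu => mem_closedBall_zero_iff.2 (hR _ (Or.inl ⟨u, Ico_subset_Icc_self hu, rfl⟩))) cg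
    (fun u hu => (hg u (Ico_subset_Icc_self hu)).hasDerivWithinAt)
    (fun u hu => mem_closedBall_zero_iff.2 (hR _ (Or.inr ⟨u, Ico_subset_Icc_self hu, rfl⟩))) h

/-- uniqueness of solutions, from the right end point -/
lemma uniq_left {a c ε s t : ℝ} {f g : ℝ → ℝ × ℝ}
    (hf : ∀ u ∈ Icc s t, HasDerivAt f (fld a c ε (f u)) u)
    (hg : ∀ u ∈ Icc s t, HasDerivAt g (fld a c ε (g u)) u) (h : f t = g t) :
    EqOn f g (Icc s t) := by
  have cf : ContinuousOn f (Icc s t) := fun u hu => (hf u hu).continuousAt.continuousWithinAt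
  have cg : ContinuousOn g (Icc s t) := fun u hu => (hg u hu).continuousAt.continuousWithinAt
  obtain ⟨R, hR⟩ := ((isCompact_Icc.image_of_continuousOn cf).union
    (isCompact_Icc.image_of_continuousOn cg)).isBounded.exists_norm_le
  obtain ⟨K, hK⟩ := ContDiffOn.exists_lipschitzOnWith (s := Metric.closedBall (0 : ℝ × ℝ) R)
    (fld_smooth a c ε).contDiffOn (by norm_num) (convex_closedBall _ _)
    (isCompact_closedBall _ _)
  exact ODE_solution_unique_of_mem_Icc_left (v := fun _ => fld a c ε)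
    (s := fun _ => Metric.closedBall (0 : ℝ × ℝ) R) (fun _ _ => hK) cf
    (fun u hu => (hf u (Ioc_subset_Icc_self hu)).hasDerivWithinAt)
    (fun u hu => mem_closedBall_zero_iff.2 (hR _ (Or.inl ⟨u, Ioc_subset_Icc_self hu, rfl⟩))) cg
    (fun u hu => (hg u (Ioc_subset_Icc_self hu)).hasDerivWithinAt)
    (fun u hu => mem_closedBall_zero_iff.2 (hR _ (Or.inr ⟨u, Ioc_subset_Icc_self hu, rfl⟩))) h

/-- the negative of a closed orbit is a closed orbit -/
lemma closed_neg {a c ε : ℝ} {D : Set (ℝ × ℝ)} (hD : D ∈ Closed (fld a c ε)) :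
    -D ∈ Closed (fld a c ε) := by
  obtain ⟨γ, T, hT, hγ, hp, ⟨t, ht⟩, rfl⟩ := hD
  refine ⟨fun t => -γ t, T, hT, fun t => ?_, fun t => by simp only [hp], ⟨t, fun h => ht
    (neg_injective h)⟩, ?_⟩
  · rw [fld_neg]
    exact (hγ t).neg
  · ext z
    constructor
    · rintro ⟨t, ht⟩
      exact ⟨t, by simp only [ht, neg_neg]⟩
    · rintro ⟨t, rfl⟩
      exact ⟨t, by simp⟩

/-- an arc of a solution which touches a closed orbit is contained in it -/
lemma closed_arc {a c ε s t : ℝ} {D : Set (ℝ × ℝ)} (hD : D ∈ Closed (fld a c ε))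
    {f : ℝ → ℝ × ℝ} (hf : ∀ u ∈ Icc s t, HasDerivAt f (fld a c ε (f u)) u) (_ : s ≤ t)
    (h : f s ∈ D ∨ f t ∈ D) : ∀ u ∈ Icc s t, f u ∈ D := by
  obtain ⟨γ, T, hT, hγ, hp, -, rfl⟩ := hD
  rcases h with ⟨σ, hσ⟩ | ⟨σ, hσ⟩
  · have h1 : EqOn f (fun u => γ (u + (σ - s))) (Icc s t) :=
      uniq_right hf (fun u _ => (hγ (u + (σ - s))).comp_add_const u (σ - s)) (by
        show f s = γ (s + (σ - s))
        rw [add_sub_cancel, hσ])
    intro u hu
    rw [h1 hu]
    exact ⟨_, rfl⟩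
  · have h1 : EqOn f (fun u => γ (u + (σ - t))) (Icc s t) :=
      uniq_left hf (fun u _ => (hγ (u + (σ - t))).comp_add_const u (σ - t)) (by
        show f t = γ (t + (σ - t))
        rw [add_sub_cancel, hσ])
    intro u hu
    rw [h1 hu]
    exact ⟨_, rfl⟩

/-- closed orbits with a common point coincide -/
lemma closed_eq {a c ε : ℝ} {D D' : Set (ℝ × ℝ)} (hD : D ∈ Closed (fld a c ε))
    (hD' : D' ∈ Closed (fld a c ε)) {z : ℝ × ℝ} (hz : z ∈ D) (hz' : z ∈ D') : D = D' := by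
  have key : ∀ D D' : Set (ℝ × ℝ), D ∈ Closed (fld a c ε) → D' ∈ Closed (fld a c ε) →
      z ∈ D → z ∈ D' → D ⊆ D' := by
    intro D D' hD hD' hz hz'
    obtain ⟨γ, T, hT, hγ, hp, -, rfl⟩ := hD
    obtain ⟨σ, hσ⟩ := hz
    rintro w ⟨t, rfl⟩
    rcases le_total σ t with h | h
    · exact closed_arc hD' (s := σ) (t := t) (fun u _ => hγ u) h (Or.inl (by rw [hσ]; exact hz')) t
        ⟨h, le_rfl⟩
    · exact closed_arc hD' (s := t) (t := σ) (fun u _ => hγ u) h (Or.inr (by rw [hσ]; exact hz')) t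
        ⟨le_rfl, h⟩
  exact Subset.antisymm (key D D' hD hD' hz hz') (key D' D hD' hD hz' hz)

lemma closed_compact {V : ℝ × ℝ → ℝ × ℝ} {D : Set (ℝ × ℝ)} (hD : D ∈ Closed V) :
    IsCompact D := by
  obtain ⟨γ, T, hT, hγ, hp, -, rfl⟩ := hD
  have q : Function.Periodic γ T := hp
  have c : Continuous γ := continuous_iff_continuousAt.2 fun t => (hγ t).continuousAt
  exact q.compact_of_continuous hT.ne' c

lemma kp_anti : StrictAntiOn kp (Ici 0) := by
  apply strictAntiOn_of_deriv_neg (convex_Ici 0)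
  · unfold kp; fun_prop
  · intro x hx
    rw [interior_Ici] at hx
    have h1 : HasDerivAt kp (Real.exp (-x ^ 2) * (-(2 * x)) * (1 + x ^ 2)
        + Real.exp (-x ^ 2) * (2 * x)) x := by
      unfold kp
      have h2 : HasDerivAt (fun x : ℝ => -x ^ 2) (-(2 * x)) x := by
        have := (hasDerivAt_pow 2 x).fun_neg
        simpa using this
      have h3 : HasDerivAt (fun x : ℝ => 1 + x ^ 2) (2 * x) x := by
        have := (hasDerivAt_pow 2 x).const_add 1
        simpa using this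
      exact h2.exp.mul h3
    rw [h1.deriv]
    have hx0 : 0 < x := hx
    have h4 : Real.exp (-x ^ 2) * (-(2 * x)) * (1 + x ^ 2) + Real.exp (-x ^ 2) * (2 * x)
        = -(Real.exp (-x ^ 2) * (2 * x ^ 3)) := by ring
    rw [h4]
    have : 0 < Real.exp (-x ^ 2) * (2 * x ^ 3) := by positivity
    linarith

lemma kp_zero : kp 0 = 1 := by simp [kp]

lemma et_mono : StrictMonoOn et (Ici 0) := by
  intro x hx y hy hxy
  unfold et
  have h1 := kp_anti hx hy hxy
  have h2 : kp x ≤ 1 := by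
    rw [← kp_zero]
    exact kp_anti.antitoneOn (mem_Ici.2 le_rfl) hx hx
  exact Real.sqrt_lt_sqrt (by linarith) (by linarith)

lemma et_zero : et 0 = 0 := by simp [et, kp_zero]

lemma et_pos {x : ℝ} (hx : 0 < x) : 0 < et x := by
  rw [← et_zero]
  exact et_mono (mem_Ici.2 le_rfl) (mem_Ici.2 hx.le) hx

lemma et_cont : Continuous et := by
  unfold et kp
  fun_prop

/-- the one dimensional comparison, right side -/
lemma comp_right {e y : ℝ → ℝ} {Q : ℝ → Prop} {X b : ℝ} (hXb : X ≤ b)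
    (he : StrictMonoOn e (Icc X b)) (hec : ContinuousOn e (Icc X b))
    (hy : StrictMonoOn y (Icc X b)) (hyc : ContinuousOn y (Icc X b)) (h0 : y X = e X)
    (hne : ∀ x ∈ Ioc X b, y x ≠ e x) (hQ : ∀ x ∈ Icc X b, Q (e x) ↔ Q (y x))
    (hcl : IsClosed {x | x ∈ Icc X b ∧ Q (e x)}) (hb : Q (e b)) : Q (e X) := by
  by_contra hX
  set K : Set ℝ := {x | x ∈ Icc X b ∧ Q (e x)} with hK
  have hKc : IsCompact K := isCompact_Icc.of_isClosed_subset hcl fun x hx => hx.1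
  obtain ⟨m, hm, hmin⟩ := hKc.exists_isLeast ⟨b, ⟨⟨hXb, le_rfl⟩, hb⟩⟩
  have hmX : X ≠ m := fun h => hX (by rw [h]; exact hm.2)
  have hmX' : X < m := lt_of_le_of_ne hm.1.1 hmX
  have hXm : X ∈ Icc X b := ⟨le_rfl, hXb⟩
  have hmm : m ∈ Icc X b := hm.1
  have hsub : Icc X m ⊆ Icc X b := Icc_subset_Icc_right hm.1.2
  have hle : ∀ x ∈ Ioo X m, ¬ Q (e x) := by
    intro x hx hq
    exact absurd (hmin ⟨hsub (Ioo_subset_Icc_self hx), hq⟩) (not_le.2 hx.2)
  rcases lt_or_gt_of_ne (hne m ⟨hmX', hm.1.2⟩) with h | h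
  · have h1 : e X < y m := by rw [← h0]; exact hy hXm hmm hmX'
    obtain ⟨x, hx, hxe⟩ := intermediate_value_Ioo hmX'.le (hec.mono hsub) ⟨h1, h⟩
    apply hle x hx
    rw [hxe]
    exact (hQ m hmm).1 hm.2
  · have h1 : y X < e m := by rw [h0]; exact he hXm hmm hmX'
    obtain ⟨x, hx, hxe⟩ := intermediate_value_Ioo hmX'.le (hyc.mono hsub) ⟨h1, h⟩
    apply hle x hx
    rw [hQ x (hsub (Ioo_subset_Icc_self hx)), hxe]
    exact hm.2

/-- the one dimensional comparison, left side -/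
lemma comp_left {e y : ℝ → ℝ} {Q : ℝ → Prop} {X b : ℝ} (hXb : b ≤ X)
    (he : StrictMonoOn e (Icc b X)) (hec : ContinuousOn e (Icc b X))
    (hy : StrictMonoOn y (Icc b X)) (hyc : ContinuousOn y (Icc b X)) (h0 : y X = e X)
    (hne : ∀ x ∈ Ico b X, y x ≠ e x) (hQ : ∀ x ∈ Icc b X, Q (e x) ↔ Q (y x))
    (hcl : IsClosed {x | x ∈ Icc b X ∧ Q (e x)}) (hb : Q (e b)) : Q (e X) := by
  by_contra hX
  set K : Set ℝ := {x | x ∈ Icc b X ∧ Q (e x)} with hK
  have hKc : IsCompact K := isCompact_Icc.of_isClosed_subset hcl fun x hx => hx.1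
  obtain ⟨m, hm, hmax⟩ := hKc.exists_isGreatest ⟨b, ⟨⟨le_rfl, hXb⟩, hb⟩⟩
  have hmX : m ≠ X := fun h => hX (by rw [← h]; exact hm.2)
  have hmX' : m < X := lt_of_le_of_ne hm.1.2 hmX
  have hXm : X ∈ Icc b X := ⟨hXb, le_rfl⟩
  have hmm : m ∈ Icc b X := hm.1
  have hsub : Icc m X ⊆ Icc b X := Icc_subset_Icc_left hm.1.1
  have hle : ∀ x ∈ Ioo m X, ¬ Q (e x) := by
    intro x hx hq
    exact absurd (hmax ⟨hsub (Ioo_subset_Icc_self hx), hq⟩) (not_le.2 hx.1)
  rcases lt_or_gt_of_ne (hne m ⟨hm.1.1, hmX'⟩) with h | h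
  · have h1 : e m < y X := by rw [h0]; exact he hmm hXm hmX'
    obtain ⟨x, hx, hxe⟩ := intermediate_value_Ioo hmX'.le (hyc.mono hsub) ⟨h, h1⟩
    apply hle x hx
    rw [hQ x (hsub (Ioo_subset_Icc_self hx)), hxe]
    exact hm.2
  · have h1 : y m < e X := by rw [← h0]; exact hy hmm hXm hmX'
    obtain ⟨x, hx, hxe⟩ := intermediate_value_Ioo hmX'.le (hec.mono hsub) ⟨h, h1⟩
    apply hle x hx
    rw [hxe]
    exact (hQ m hmm).1 hm.2

section flow

variable {a c R : ℝ} {Z : ℝ → ℝ × ℝ → ℝ → ℝ × ℝ} {W : ℝ → ℝ × ℝ → ℝ → ℝ} {ε : ℝ}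

lemma Zcont (h : Flw a c R Z W) (ε : ℝ) : Continuous fun q : ℝ × (ℝ × ℝ) => Z q.1 q.2 ε := by
  have h1 : Continuous fun q : ℝ × (ℝ × ℝ) => ((q.1, q.2, ε) : ℝ × (ℝ × ℝ) × ℝ) := by fun_prop
  exact h.smZ.continuous.comp h1

lemma Zcont_t (h : Flw a c R Z W) (ε : ℝ) (p : ℝ × ℝ) : Continuous fun t => Z t p ε := by
  have h1 : Continuous fun t : ℝ => ((t, p) : ℝ × (ℝ × ℝ)) := by fun_prop
  exact (Zcont h ε).comp h1

lemma Zcont_p (h : Flw a c R Z W) (ε : ℝ) (t : ℝ) : Continuous fun p => Z t p ε := by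
  have h1 : Continuous fun p : ℝ × ℝ => ((t, p) : ℝ × (ℝ × ℝ)) := by fun_prop
  exact (Zcont h ε).comp h1

lemma Zodd (h : Flw a c R Z W) (hε : |ε| < 1) {p : ℝ × ℝ} {T : ℝ}
    (hb : ∀ t ∈ Icc 0 T, ‖Z t p ε‖ < R) : ∀ t ∈ Icc 0 T, Z t (-p) ε = -Z t p ε := by
  have cl : IsClosed {t : ℝ | Z t (-p) ε = -Z t p ε} :=
    isClosed_eq (Zcont_t h ε (-p)) (Zcont_t h ε p).neg
  have key : Icc 0 T ⊆ {t : ℝ | Z t (-p) ε = -Z t p ε} := by
    apply IsClosed.Icc_subset_of_forall_exists_gt (cl.inter isClosed_Icc)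
    · show Z 0 (-p) ε = -Z 0 p ε
      rw [h.zero, h.zero]
    · rintro x ⟨hx, hx1⟩ y hy
      have hxe : Z x (-p) ε = -Z x p ε := hx
      have hn1 : ‖Z x p ε‖ < R := hb x (Ico_subset_Icc_self hx1)
      have hn2 : ‖Z x (-p) ε‖ < R := by rw [hxe, norm_neg]; exact hn1
      have e1 : ∀ᶠ t in 𝓝 x, ‖Z t p ε‖ < R :=
        (Zcont_t h ε p).norm.continuousAt.eventually (gt_mem_nhds hn1)
      have e2 : ∀ᶠ t in 𝓝 x, ‖Z t (-p) ε‖ < R :=
        (Zcont_t h ε (-p)).norm.continuousAt.eventually (gt_mem_nhds hn2)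
      obtain ⟨ρ, hρ, hball⟩ := Metric.eventually_nhds_iff.1 (e1.and e2)
      have hy' : x < y := hy
      set y' := min y (x + ρ / 2) with hy'd
      have hxy' : x < y' := lt_min hy' (by linarith)
      have hin : ∀ u ∈ Icc x y', ‖Z u p ε‖ < R ∧ ‖Z u (-p) ε‖ < R := by
        intro u hu
        apply hball
        rw [Real.dist_eq, abs_lt]
        have := min_le_right y (x + ρ / 2)
        exact ⟨by linarith [hu.1], by linarith [hu.2]⟩
      have h1 := uniq_right (a := a) (c := c) (ε := ε) (s := x) (t := y')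
        (f := fun t => Z t (-p) ε) (g := fun t => -Z t p ε)
        (fun u hu => h.der (-p) ε u (hin u hu).2 hε)
        (fun u hu => by
          rw [fld_neg]
          exact (h.der p ε u (hin u hu).1 hε).neg) hxe
      exact ⟨y', h1 ⟨hxy'.le, le_rfl⟩, hxy', min_le_left _ _⟩
  exact fun t ht => key ht

lemma orbit (h : Flw a c R Z W) (hε : |ε| < 1) {p : ℝ × ℝ} {T : ℝ} (hT : 0 < T)
    (hb : ∀ t ∈ Icc 0 T, ‖Z t p ε‖ < R) (hTp : Z T p ε = -p) :
    (∀ t, Z (t + 2 * T) p ε = Z t p ε) ∧ (∀ t, Z (t + T) p ε = -Z t p ε) ∧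
    (∀ t, ‖Z t p ε‖ < R) ∧
    ∀ t, ∃ u ∈ Icc 0 T, Z t p ε = Z u p ε ∨ Z t p ε = -Z u p ε := by
  have odd := Zodd h hε hb
  have h1 : ∀ t ∈ Icc 0 T, Z (t + T) p ε = -Z t p ε := by
    intro t ht
    rw [h.add, hTp, odd t ht]
  have h2 : Z (2 * T) p ε = p := by
    rw [two_mul, h1 T ⟨hT.le, le_rfl⟩, hTp, neg_neg]
  have per : ∀ t, Z (t + 2 * T) p ε = Z t p ε := by
    intro t
    rw [h.add, h2]
  have hF : Function.Periodic (fun t => (Z t p ε, Z (t + T) p ε)) (2 * T) := by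
    intro t
    show (Z (t + 2 * T) p ε, Z (t + 2 * T + T) p ε) = (Z t p ε, Z (t + T) p ε)
    rw [per, show t + 2 * T + T = (t + T) + 2 * T by ring, per]
  have hred : ∀ t, ∃ u ∈ Ico 0 (2 * T), Z t p ε = Z u p ε ∧ Z (t + T) p ε = Z (u + T) p ε := by
    intro t
    obtain ⟨u, hu, hu2⟩ := hF.exists_mem_Ico₀ (by positivity) t
    exact ⟨u, hu, (Prod.mk.inj hu2).1, (Prod.mk.inj hu2).2⟩
  have anti0 : ∀ u ∈ Ico 0 (2 * T), Z (u + T) p ε = -Z u p ε := by
    intro u hu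
    rcases le_total u T with hu1 | hu1
    · exact h1 u ⟨hu.1, hu1⟩
    · have e1 : Z (u + T) p ε = Z (u - T) p ε := by
        rw [show u + T = (u - T) + 2 * T by ring, per]
      have e2 : Z u p ε = -Z (u - T) p ε := by
        have := h1 (u - T) ⟨by linarith, by linarith [hu.2]⟩
        rwa [sub_add_cancel] at this
      rw [e1, e2, neg_neg]
  have anti : ∀ t, Z (t + T) p ε = -Z t p ε := by
    intro t
    obtain ⟨u, hu, e1, e2⟩ := hred t
    rw [e1, e2, anti0 u hu]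
  have form : ∀ t, ∃ u ∈ Icc 0 T, Z t p ε = Z u p ε ∨ Z t p ε = -Z u p ε := by
    intro t
    obtain ⟨u, hu, e1, -⟩ := hred t
    rcases le_total u T with hu1 | hu1
    · exact ⟨u, ⟨hu.1, hu1⟩, Or.inl e1⟩
    · refine ⟨u - T, ⟨by linarith, by linarith [hu.2]⟩, Or.inr ?_⟩
      rw [e1, ← anti (u - T), sub_add_cancel]
  refine ⟨per, anti, fun t => ?_, form⟩
  obtain ⟨u, hu, h3 | h3⟩ := form t
  · rw [h3]; exact hb u hu
  · rw [h3, norm_neg]; exact hb u hu

lemma near (h : Flw a c R Z W) (hε : |ε| < 1) {X r : ℝ} (hr : 0 < r) (hXr : 0 < X - r)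
    (hR : ‖((0, et X) : ℝ × ℝ)‖ < R) :
    ∀ᶠ v in 𝓝 ((0, et X) : ℝ × ℝ), ∃ X' ∈ Ioo (X - r) (X + r), ∃ s : ℝ,
      (∀ u ∈ uIcc 0 s, ‖Z u v ε‖ < R) ∧ Z s v ε = (0, et X') := by
  have hlo : et (X - r) < et X := et_mono (mem_Ici.2 hXr.le) (mem_Ici.2 (by linarith)) (by linarith)
  have hhi : et X < et (X + r) :=
    et_mono (mem_Ici.2 (by linarith)) (mem_Ici.2 (by linarith)) (by linarith)
  have hz0 : Z 0 (0, et X) ε = (0, et X) := h.zero _ _
  have ev : ∀ᶠ q : ℝ × (ℝ × ℝ) in 𝓝 (0, (0, et X)),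
      ‖Z q.1 q.2 ε‖ < R ∧ et (X - r) < (Z q.1 q.2 ε).2 ∧ (Z q.1 q.2 ε).2 < et (X + r) := by
    have c1 : ContinuousAt (fun q : ℝ × (ℝ × ℝ) => Z q.1 q.2 ε) (0, (0, et X)) :=
      (Zcont h ε).continuousAt
    have c2 : ContinuousAt (fun q : ℝ × (ℝ × ℝ) => (Z q.1 q.2 ε).2) (0, (0, et X)) :=
      (continuous_snd.comp (Zcont h ε)).continuousAt
    have e1 : ‖Z 0 (0, et X) ε‖ < R := by rw [hz0]; exact hR
    have e2 : et (X - r) < (Z 0 (0, et X) ε).2 := by rw [hz0]; exact hlo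
    have e3 : (Z 0 (0, et X) ε).2 < et (X + r) := by rw [hz0]; exact hhi
    exact (c1.norm.eventually (gt_mem_nhds e1)).and
      ((c2.eventually (lt_mem_nhds e2)).and (c2.eventually (gt_mem_nhds e3)))
  obtain ⟨ρ, hρ, hball⟩ := Metric.eventually_nhds_iff.1 ev
  set σ := ρ / 2 with hσ
  have hσ0 : 0 < σ := by positivity
  have hin : ∀ v, dist v ((0, et X) : ℝ × ℝ) < ρ → ∀ s ∈ Icc (-σ) σ,
      ‖Z s v ε‖ < R ∧ et (X - r) < (Z s v ε).2 ∧ (Z s v ε).2 < et (X + r) := by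
    intro v hv s hs
    apply hball (y := (s, v))
    rw [Prod.dist_eq]
    refine max_lt ?_ hv
    rw [Real.dist_eq, abs_lt]
    exact ⟨by simp only [sub_zero]; linarith [hs.1], by simp only [sub_zero]; linarith [hs.2]⟩
  have hpos : 0 < et (X - r) := et_pos hXr
  have hder : ∀ v, dist v ((0, et X) : ℝ × ℝ) < ρ → ∀ s ∈ Icc (-σ) σ,
      HasDerivAt (fun s => (Z s v ε).1) ((Z s v ε).2) s := by
    intro v hv s hs
    have h1 := h.der v ε s (hin v hv s hs).1 hε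
    exact h1.fst
  have hself : dist ((0, et X) : ℝ × ℝ) (0, et X) < ρ := by rw [dist_self]; exact hρ
  have hmono : StrictMonoOn (fun s => (Z s (0, et X) ε).1) (Icc (-σ) σ) := by
    apply strictMonoOn_of_deriv_pos (convex_Icc _ _)
    · exact fun s hs => (hder _ hself s hs).continuousAt.continuousWithinAt
    · intro s hs
      rw [interior_Icc] at hs
      rw [(hder _ hself s (Ioo_subset_Icc_self hs)).deriv]
      linarith [(hin _ hself s (Ioo_subset_Icc_self hs)).2.1]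
  have h0 : (Z 0 (0, et X) ε).1 = 0 := by rw [hz0]
  have m0 : (0:ℝ) ∈ Icc (-σ) σ := ⟨by linarith, hσ0.le⟩
  have hp1 : 0 < (Z σ (0, et X) ε).1 := by
    have h3 : (Z 0 (0, et X) ε).1 < (Z σ (0, et X) ε).1 := hmono m0 ⟨by linarith, le_rfl⟩ hσ0
    rwa [h0] at h3
  have hm1 : (Z (-σ) (0, et X) ε).1 < 0 := by
    have h3 : (Z (-σ) (0, et X) ε).1 < (Z 0 (0, et X) ε).1 :=
      hmono ⟨le_rfl, by linarith⟩ m0 (by linarith)
    rwa [h0] at h3
  have ev1 : ∀ᶠ v in 𝓝 ((0, et X) : ℝ × ℝ), 0 < (Z σ v ε).1 :=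
    (continuous_fst.comp (Zcont_p h ε σ)).continuousAt.eventually (lt_mem_nhds hp1)
  have ev2 : ∀ᶠ v in 𝓝 ((0, et X) : ℝ × ℝ), (Z (-σ) v ε).1 < 0 :=
    (continuous_fst.comp (Zcont_p h ε (-σ))).continuousAt.eventually (gt_mem_nhds hm1)
  filter_upwards [ev1, ev2, Metric.ball_mem_nhds _ hρ] with v hv1 hv2 hv3
  obtain ⟨s, hs, hs0⟩ := intermediate_value_Ioo (show -σ ≤ σ by linarith)
    ((continuous_fst.comp (Zcont_t h ε v)).continuousOn (s := Icc (-σ) σ)) ⟨hv2, hv1⟩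
  have hs' := hin v hv3 s (Ioo_subset_Icc_self hs)
  obtain ⟨X', hX', hX'e⟩ := intermediate_value_Ioo (show X - r ≤ X + r by linarith)
    (et_cont.continuousOn (s := Icc (X - r) (X + r))) hs'.2
  refine ⟨X', hX', s, ?_, ?_⟩
  · intro u hu
    have hu' : u ∈ Icc (-σ) σ := by
      rcases le_total 0 s with h2 | h2
      · rw [uIcc_of_le h2] at hu
        exact ⟨by linarith [hu.1], by linarith [hu.2, hs.2]⟩
      · rw [uIcc_of_ge h2] at hu
        exact ⟨by linarith [hu.1, hs.1], by linarith [hu.2]⟩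
    exact (hin v hv3 u hu').1
  · rw [hX'e]
    exact Prod.ext hs0 rfl

/-- an arc of the flow which touches a closed orbit is contained in it -/
lemma arc (h : Flw a c R Z W) (hε : |ε| < 1) {D : Set (ℝ × ℝ)} (hD : D ∈ Closed (fld a c ε))
    {v : ℝ × ℝ} {s : ℝ} (hb : ∀ u ∈ uIcc 0 s, ‖Z u v ε‖ < R) : Z s v ε ∈ D ↔ v ∈ D := by
  rcases le_total 0 s with h2 | h2
  · rw [uIcc_of_le h2] at hb
    have hf : ∀ u ∈ Icc 0 s, HasDerivAt (fun t => Z t v ε) (fld a c ε (Z u v ε)) u :=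
      fun u hu => h.der v ε u (hb u hu) hε
    constructor
    · intro hs
      have := closed_arc hD hf h2 (Or.inr hs) 0 ⟨le_rfl, h2⟩
      rwa [h.zero] at this
    · intro hv
      exact closed_arc hD hf h2 (Or.inl (by rw [h.zero]; exact hv)) s ⟨h2, le_rfl⟩
  · rw [uIcc_of_ge h2] at hb
    have hf : ∀ u ∈ Icc s 0, HasDerivAt (fun t => Z t v ε) (fld a c ε (Z u v ε)) u :=
      fun u hu => h.der v ε u (hb u hu) hε
    constructor
    · intro hs
      have := closed_arc hD hf h2 (Or.inl hs) 0 ⟨h2, le_rfl⟩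
      rwa [h.zero] at this
    · intro hv
      exact closed_arc hD hf h2 (Or.inr (by rw [h.zero]; exact hv)) s ⟨le_rfl, h2⟩

end flow

theorem isolated {a c R X₀ : ℝ} {Z : ℝ → ℝ × ℝ → ℝ → ℝ × ℝ} {W : ℝ → ℝ × ℝ → ℝ → ℝ}
    (h : Flw a c R Z W) {τ : ℝ × ℝ → ℝ} {δ : ℝ} (hh : Half a c R X₀ Z W τ δ)
    {ε X r : ℝ} (hε : 0 < ε) (hεδ : ε < δ) (hr : 0 < r) (h1 : X₀ - δ < X - r)
    (h2 : X + r < X₀ + δ) (hfix : Z (τ (X, ε)) (0, et X) ε = (0, -et X))
    (huniq : ∀ X' ∈ Ioo (X - r) (X + r), X' ≠ X → Z (τ (X', ε)) (0, et X') ε ≠ (0, -et X'))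
    (hmono : ∀ X' ∈ Ioo (X - r) (X + r), ∀ X'' ∈ Ioo (X - r) (X + r), X' < X'' →
        (Z (τ (X'', ε)) (0, et X'') ε).2 < (Z (τ (X', ε)) (0, et X') ε).2) :
    ∃ C ∈ Cyc (fld a c ε), (0, et X) ∈ C ∧ ∀ z ∈ C, ∃ t ∈ Icc 0 (τ (X, ε)),
      z = Z t (0, et X) ε ∨ z = -Z t (0, et X) ε := by
  have hε1 : |ε| < 1 := by rw [abs_of_pos hε]; linarith [hh.hδ1]
  have hεI : ε ∈ Ioo (-δ) δ := ⟨by linarith, hεδ⟩
  have hXI : ∀ x ∈ Ioo (X - r) (X + r), x ∈ Ioo (X₀ - δ) (X₀ + δ) := fun x hx =>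
    ⟨by linarith [hx.1], by linarith [hx.2]⟩
  have hXX : X ∈ Ioo (X - r) (X + r) := ⟨by linarith, by linarith⟩
  have hXr : 0 < X - r := by linarith [hh.hδ0]
  have hX0 : 0 < X := by linarith
  set p : ℝ × ℝ := (0, et X) with hp
  set T := τ (X, ε) with hT
  have hTpos : 0 < T := hh.pos X (hXI X hXX) ε hεI
  have hb : ∀ t ∈ Icc 0 T, ‖Z t p ε‖ < R := hh.ball X (hXI X hXX) ε hεI
  have hTp : Z T p ε = -p := by
    rw [hfix, hp]
    ext <;> simp
  obtain ⟨per, anti, ball, form⟩ := orbit h hε1 hTpos hb hTp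
  set C : Set (ℝ × ℝ) := Set.range (fun t => Z t p ε) with hC
  have hpC : p ∈ C := ⟨0, h.zero p ε⟩
  have hCcl : C ∈ Closed (fld a c ε) := by
    refine ⟨fun t => Z t p ε, 2 * T, by positivity, fun t => h.der p ε t (ball t) hε1, per,
      ⟨T, ?_⟩, rfl⟩
    show Z T p ε ≠ Z 0 p ε
    rw [hTp, h.zero]
    intro he
    have h3 := congrArg Prod.snd he
    have h4 := et_pos hX0
    simp only [hp, Prod.snd_neg] at h3
    linarith
  have hCneg : ∀ z ∈ C, -z ∈ C := by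
    rintro z ⟨t, rfl⟩
    exact ⟨t + T, anti t⟩
  -- the one dimensional argument
  have main : ∀ D ∈ Closed (fld a c ε), ∀ X' ∈ Ioo (X - r) (X + r), ((0, et X') : ℝ × ℝ) ∈ D →
      D = C := by
    intro D hD X' hX' hX'D
    set Q : ℝ → Prop := fun t => ((0, t) : ℝ × ℝ) ∈ D ∨ ((0, -t) : ℝ × ℝ) ∈ D with hQdef
    set y : ℝ → ℝ := fun x => -(Z (τ (x, ε)) (0, et x) ε).2 with hy
    have hDn := closed_neg hD
    have hZy : ∀ x ∈ Ioo (X - r) (X + r), Z (τ (x, ε)) (0, et x) ε = (0, -y x) := by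
      intro x hx
      have h3 := hh.hit x (hXI x hx) ε hεI
      apply Prod.ext
      · exact h3
      · simp [hy]
    have hneg : ∀ t : ℝ, -((0, t) : ℝ × ℝ) = (0, -t) := by
      intro t; ext <;> simp
    have hQ : ∀ x ∈ Ioo (X - r) (X + r), Q (et x) ↔ Q (y x) := by
      intro x hx
      have hbx : ∀ u ∈ uIcc 0 (τ (x, ε)), ‖Z u (0, et x) ε‖ < R := by
        rw [uIcc_of_le (hh.pos x (hXI x hx) ε hεI).le]
        exact hh.ball x (hXI x hx) ε hεI
      have a1 := arc h hε1 hD hbx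
      have a2 := arc h hε1 hDn hbx
      rw [hZy x hx] at a1 a2
      rw [Set.mem_neg, Set.mem_neg, hneg, hneg, neg_neg] at a2
      show (_ ∨ _) ↔ (_ ∨ _)
      rw [a2, ← a1, or_comm]
    have hyc : ContinuousOn y (Ioo (X - r) (X + r)) := by
      have c1 : ContinuousOn (fun x : ℝ => τ (x, ε)) (Ioo (X - r) (X + r)) := by
        have c2 : ContinuousOn (fun x : ℝ => ((x, ε) : ℝ × ℝ)) (Ioo (X - r) (X + r)) := by
          fun_prop
        exact hh.smooth.continuousOn.comp c2 fun x hx => ⟨hXI x hx, hεI⟩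
      have c3 : ContinuousOn (fun x : ℝ => ((0, et x) : ℝ × ℝ)) (Ioo (X - r) (X + r)) :=
        (continuous_const.prodMk et_cont).continuousOn
      have c4 : ContinuousOn (fun x : ℝ => Z (τ (x, ε)) (0, et x) ε) (Ioo (X - r) (X + r)) :=
        (Zcont h ε).comp_continuousOn (c1.prodMk c3)
      exact (continuous_snd.comp_continuousOn c4).neg
    have hym : StrictMonoOn y (Ioo (X - r) (X + r)) := by
      intro x hx x' hx' hxx
      have := hmono x hx x' hx' hxx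
      simp only [hy]
      linarith
    have hem : StrictMonoOn et (Ioo (X - r) (X + r)) :=
      et_mono.mono fun x hx => mem_Ici.2 (by linarith [hx.1])
    have h0 : y X = et X := by
      simp only [hy]
      rw [hfix]
      simp
    have hne : ∀ x ∈ Ioo (X - r) (X + r), x ≠ X → y x ≠ et x := by
      intro x hx hxX he
      apply huniq x hx hxX
      rw [hZy x hx, he]
    have hclq : IsClosed {x : ℝ | Q (et x)} := by
      have d1 : IsClosed D := (closed_compact hD).isClosed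
      have e1 : IsClosed {x : ℝ | ((0, et x) : ℝ × ℝ) ∈ D} :=
        d1.preimage (continuous_const.prodMk et_cont)
      have e2 : IsClosed {x : ℝ | ((0, -et x) : ℝ × ℝ) ∈ D} :=
        d1.preimage (continuous_const.prodMk et_cont.neg)
      exact e1.union e2
    have hQX : Q (et X) := by
      have hQX' : Q (et X') := Or.inl hX'D
      rcases le_total X X' with hle | hle
      · have hsub : Icc X X' ⊆ Ioo (X - r) (X + r) := fun x hx =>
          ⟨by linarith [hx.1], by linarith [hx.2, hX'.2]⟩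
        exact comp_right hle (hem.mono hsub) et_cont.continuousOn (hym.mono hsub)
          (hyc.mono hsub) h0 (fun x hx => hne x (hsub (Ioc_subset_Icc_self hx)) hx.1.ne')
          (fun x hx => hQ x (hsub hx)) (isClosed_Icc.inter hclq) hQX'
      · have hsub : Icc X' X ⊆ Ioo (X - r) (X + r) := fun x hx =>
          ⟨by linarith [hx.1, hX'.1], by linarith [hx.2]⟩
        exact comp_left hle (hem.mono hsub) et_cont.continuousOn (hym.mono hsub)
          (hyc.mono hsub) h0 (fun x hx => hne x (hsub (Ico_subset_Icc_self hx)) hx.2.ne)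
          (fun x hx => hQ x (hsub hx)) (isClosed_Icc.inter hclq) hQX'
    rcases hQX with h3 | h3
    · exact closed_eq hD hCcl h3 hpC
    · refine closed_eq hD hCcl h3 ?_
      have := hCneg p hpC
      rwa [hp, hneg] at this
  -- near `p`
  have nearp : ∀ᶠ v in 𝓝 p, ∀ D ∈ Closed (fld a c ε), v ∈ D → D = C := by
    have hpR : ‖p‖ < R := by
      have := ball 0
      rwa [h.zero] at this
    filter_upwards [near h hε1 hr hXr hpR] with v hv D hD hvD
    obtain ⟨X', hX', s, hs1, hs2⟩ := hv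
    apply main D hD X' hX'
    rw [← hs2]
    exact (arc h hε1 hD hs1).2 hvD
  have tube : ∀ᶠ v in 𝓝 p, ∀ s ∈ Icc 0 T, ‖Z s v ε‖ < R := by
    apply isCompact_Icc.eventually_forall_of_forall_eventually
    intro s hs
    have c1 : Continuous fun q : (ℝ × ℝ) × ℝ => ‖Z q.2 q.1 ε‖ :=
      ((Zcont h ε).comp continuous_swap).norm
    exact c1.continuousAt.eventually (gt_mem_nhds (hb s hs))
  have nearC : ∀ t ∈ Icc 0 T, ∀ᶠ w in 𝓝 (Z t p ε), ∀ D ∈ Closed (fld a c ε), w ∈ D → D = C := by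
    intro t ht
    have hback : Z (-t) (Z t p ε) ε = p := by
      rw [← h.add, neg_add_cancel, h.zero]
    have c1 : Tendsto (fun w => Z (-t) w ε) (𝓝 (Z t p ε)) (𝓝 p) := by
      have := (Zcont_p h ε (-t)).continuousAt (x := Z t p ε)
      rw [ContinuousAt, hback] at this
      exact this
    filter_upwards [c1.eventually nearp, c1.eventually tube] with w hw1 hw2 D hD hwD
    have hfw : Z t (Z (-t) w ε) ε = w := by
      rw [← h.add, add_neg_cancel, h.zero]
    apply hw1 D hD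
    have ha := arc h hε1 hD (v := Z (-t) w ε) (s := t) (by
      intro u hu
      rw [uIcc_of_le ht.1] at hu
      exact hw2 u ⟨hu.1, hu.2.trans ht.2⟩)
    rw [hfw] at ha
    exact ha.1 hwD
  have nearall : ∀ z ∈ C, ∀ᶠ w in 𝓝 z, ∀ D ∈ Closed (fld a c ε), w ∈ D → D = C := by
    rintro z ⟨t, rfl⟩
    obtain ⟨u, hu, h3 | h3⟩ := form t
    · show ∀ᶠ w in 𝓝 (Z t p ε), _
      rw [h3]
      exact nearC u hu
    · show ∀ᶠ w in 𝓝 (Z t p ε), _
      rw [h3]
      have c1 : Tendsto (fun w : ℝ × ℝ => -w) (𝓝 (-Z u p ε)) (𝓝 (Z u p ε)) := by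
        have := (continuous_neg (G := ℝ × ℝ)).continuousAt (x := -Z u p ε)
        rw [ContinuousAt, neg_neg] at this
        exact this
      filter_upwards [c1.eventually (nearC u hu)] with w hw D hD hwD
      have h4 : -D = C := hw (-D) (closed_neg hD) (by simpa using hwD)
      have h5 : D = -C := by rw [← h4, neg_neg]
      rw [h5]
      ext z
      constructor
      · intro hz
        have := hCneg (-z) hz
        rwa [neg_neg] at this
      · intro hz
        exact hCneg z hz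
  refine ⟨C, ⟨hCcl, {w | ∀ᶠ w' in 𝓝 w, ∀ D ∈ Closed (fld a c ε), w' ∈ D → D = C},
    isOpen_setOfPred_eventually_nhds, nearall, ?_⟩, hpC, ?_⟩
  · rintro D hD ⟨w, hwD, hw⟩
    exact (Filter.Eventually.self_of_nhds hw) D hD hwD
  · rintro z ⟨t, rfl⟩
    exact form t

end Pool.Agent.W920.HC
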